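import Mathlib
import Pool.Agent.X122.CMCont

/-!
# MP_d2a7e5_an: the digamma approximation remainder is not completely monotonic
-/

namespace Pool.Agent.Results.MP_d2a7e5_an.NotCM

open Set Filter Topology Pool.Agent.X122.CMCont
open scoped ContDiff Nat

/-- The digamma function `ψ = Γ' / Γ`. -/
noncomputable def psi (x : ℝ) : ℝ := deriv Real.Gamma x / Real.Gamma x

/-- The function `𝓛(x, a)`. -/
noncomputable def L (x a : ℝ) : ℝ :=
  1 / (90 * a ^ 2 + 2) * Real.log (x ^ 2 + x + (3 * a + 1) / 3) +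
    45 * a ^ 2 / (90 * a ^ 2 + 2) * Real.log (x ^ 2 + x + (15 * a - 1) / (45 * a))

/-- The function `G_a(x) = 𝓛(x, a) - ψ(x + 1)`. -/
noncomputable def G (a x : ℝ) : ℝ := L x a - psi (x + 1)

/-- The special parameter `a_1`. -/
noncomputable def a1 : ℝ := (40 + 3 * √205) / 105

lemma analytic_Gamma {z : ℂ} (hz : 0 < z.re) : AnalyticAt ℂ Complex.Gamma z := by
  have h : DifferentiableOn ℂ Complex.Gamma {w : ℂ | 0 < w.re} := by
    intro w hw
    refine (Complex.differentiableAt_Gamma w fun m hm => ?_).differentiableWithinAt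
    have hw' : 0 < w.re := hw
    rw [hm] at hw'
    simp only [Complex.neg_re, Complex.natCast_re] at hw'
    have : (0 : ℝ) ≤ m := Nat.cast_nonneg m
    linarith
  have ho : IsOpen {w : ℂ | 0 < w.re} := isOpen_lt continuous_const Complex.continuous_re
  exact h.analyticAt (ho.mem_nhds hz)

/-- The complex digamma function. -/
noncomputable def psiC (z : ℂ) : ℂ := deriv Complex.Gamma z / Complex.Gamma z

lemma analytic_psiC {z : ℂ} (hz : 0 < z.re) : AnalyticAt ℂ psiC z :=
  (analytic_Gamma hz).deriv.div (analytic_Gamma hz) (Complex.Gamma_ne_zero_of_re_pos hz)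

lemma psiC_ofReal {x : ℝ} (hx : 0 < x) : psiC (x : ℂ) = (psi x : ℂ) := by
  have h := link (fR := Real.Gamma) (fC := Complex.Gamma) (U := Ioi 0) isOpen_Ioi
    (fun y hy => analytic_Gamma (by simpa using hy)) (fun y _ => Complex.Gamma_ofReal y)
    1 x hx
  rw [iteratedDeriv_one, iteratedDeriv_one] at h
  rw [psiC, psi, h, Complex.Gamma_ofReal]
  push_cast
  rfl

lemma deriv_psiC_ofReal {x : ℝ} (hx : 0 < x) :
    deriv psiC (x : ℂ) = ((deriv psi x : ℝ) : ℂ) := by
  have h := link (fR := psi) (fC := psiC) (U := Ioi 0) isOpen_Ioi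
    (fun y hy => analytic_psiC (by simpa using hy)) (fun y hy => psiC_ofReal hy) 1 x hx
  rwa [iteratedDeriv_one, iteratedDeriv_one] at h

lemma differentiable_psi {x : ℝ} (hx : 0 < x) : DifferentiableAt ℝ psi x :=
  (contDiffAt_of_link (fR := psi) (fC := psiC) (U := Ioi 0) isOpen_Ioi
    (fun y hy => analytic_psiC (by simpa using hy)) (fun y hy => psiC_ofReal hy) x hx
    ).differentiableAt (by simp)

/-- The general statement. -/
theorem main (a : ℝ) (ha : 4 / 15 < a) :
    ∃ n : ℕ, ∃ x : ℝ, -1 < x ∧ (-1 : ℝ) ^ n * iteratedDeriv n (G a) x < 0 := by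
  by_contra hcon
  push Not at hcon
  have ha0 : 0 < a := by linarith
  set A : ℝ := 1 / (90 * a ^ 2 + 2) with hA
  set B : ℝ := 45 * a ^ 2 / (90 * a ^ 2 + 2) with hB
  set c1 : ℝ := (3 * a + 1) / 3 with hc1
  set c2 : ℝ := (15 * a - 1) / (45 * a) with hc2
  have hA0 : 0 < A := by positivity
  have hc1' : 1 / 4 < c1 := by rw [hc1]; linarith
  have hc2' : 1 / 4 < c2 := by
    rw [hc2, div_lt_div_iff₀ (by norm_num) (by positivity)]
    linarith
  have hc12 : c2 < c1 := by
    have : c2 = 1 / 3 - 1 / (45 * a) := by rw [hc2]; field_simp; ring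
    have h2 : 0 < 1 / (45 * a) := by positivity
    rw [this, hc1]; linarith
  have hq : ∀ (c x : ℝ), 1 / 4 < c → 0 < x ^ 2 + x + c := by
    intro c x hc
    nlinarith [sq_nonneg (x + 1 / 2)]
  -- the derivative of L
  set R : ℝ → ℝ := fun x => A * ((2 * x + 1) / (x ^ 2 + x + c1)) +
    B * ((2 * x + 1) / (x ^ 2 + x + c2)) with hR
  have hlog : ∀ (c x : ℝ), 1 / 4 < c →
      HasDerivAt (fun x : ℝ => Real.log (x ^ 2 + x + c)) ((2 * x + 1) / (x ^ 2 + x + c)) x := by
    intro c x hc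
    have h1 : HasDerivAt (fun x : ℝ => x ^ 2 + x + c) (2 * x + 1) x := by
      have := ((hasDerivAt_pow 2 x).add (hasDerivAt_id x)).add_const c
      simpa using this
    exact h1.log (hq c x hc).ne'
  have hderiv : ∀ x : ℝ, -1 < x → HasDerivAt (G a) (R x - deriv psi (x + 1)) x := by
    intro x hx
    have h1 : HasDerivAt (fun y => L y a) (R x) x :=
      ((hlog c1 x hc1').const_mul A).add ((hlog c2 x hc2').const_mul B)
    have h2 : HasDerivAt (fun y => psi (y + 1)) (deriv psi (x + 1)) x := by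
      have := (differentiable_psi (x := x + 1) (by linarith)).hasDerivAt
      exact this.comp_add_const x 1
    exact h1.sub h2
  -- the function f = -G'
  set fR : ℝ → ℝ := fun x => deriv psi (x + 1) - R x with hfR
  set fC : ℂ → ℂ := fun z => deriv psiC (z + 1) - ((A : ℂ) * ((2 * z + 1) / (z ^ 2 + z + c1)) +
    (B : ℂ) * ((2 * z + 1) / (z ^ 2 + z + c2))) with hfC
  have hqC : ∀ (c x : ℝ), 1 / 4 < c → ((x : ℂ) ^ 2 + x + c) ≠ 0 := by
    intro c x hc h
    have := hq c x hc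
    have h2 : ((x ^ 2 + x + c : ℝ) : ℂ) = 0 := by push_cast; exact h
    exact this.ne' (by exact_mod_cast h2)
  have han : ∀ x : ℝ, -1 < x → AnalyticAt ℂ fC (x : ℂ) := by
    intro x hx
    have h1 : AnalyticAt ℂ (fun z : ℂ => deriv psiC (z + 1)) (x : ℂ) := by
      have h2 : AnalyticAt ℂ (deriv psiC) ((x : ℂ) + 1) :=
        (analytic_psiC (by simp; linarith)).deriv
      exact AnalyticAt.comp (g := deriv psiC) (f := fun z : ℂ => z + 1) h2 (by fun_prop)
    refine h1.sub (AnalyticAt.add ?_ ?_)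
    · exact analyticAt_const.mul (AnalyticAt.div (by fun_prop) (by fun_prop) (hqC c1 x hc1'))
    · exact analyticAt_const.mul (AnalyticAt.div (by fun_prop) (by fun_prop) (hqC c2 x hc2'))
  have heq : ∀ x : ℝ, -1 < x → fC (x : ℂ) = (fR x : ℂ) := by
    intro x hx
    simp only [hfC, hfR, hR]
    have h1 := deriv_psiC_ofReal (x := x + 1) (by linarith)
    push_cast at h1 ⊢
    rw [h1]
  have hcm : ∀ n : ℕ, ∀ x, (-1 : ℝ) < x → 0 ≤ (-1 : ℝ) ^ n * iteratedDeriv n fR x := by
    intro n x hx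
    have h1 := hcon (n + 1) x hx
    rw [iteratedDeriv_succ'] at h1
    have h2 : deriv (G a) =ᶠ[𝓝 x] fun y => -fR y := by
      filter_upwards [lt_mem_nhds hx] with y hy
      rw [(hderiv y hy).deriv]
      simp only [hfR]; ring
    rw [h2.iteratedDeriv_eq n] at h1
    have h3 : iteratedDeriv n (fun y => -fR y) x = -iteratedDeriv n fR x := by
      rw [iteratedDeriv_fun_neg]
    rw [h3, pow_succ] at h1
    linarith
  -- choose x0, r
  set x0 : ℝ := a + 1 with hx0
  set β : ℝ := √(c1 - 1 / 4) with hβ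
  have hβ2 : β ^ 2 = c1 - 1 / 4 := Real.sq_sqrt (by linarith)
  have hβ0 : 0 < β := Real.sqrt_pos.mpr (by linarith)
  set z0 : ℂ := ⟨-1 / 2, β⟩ with hz0
  have hdist : ‖z0 - (x0 : ℂ)‖ < x0 + 1 := by
    have h1 : ‖z0 - (x0 : ℂ)‖ ^ 2 = (x0 + 1 / 2) ^ 2 + β ^ 2 := by
      rw [← Complex.normSq_eq_norm_sq, Complex.normSq_apply]
      simp [hz0]
      ring
    have h2 : ‖z0 - (x0 : ℂ)‖ ^ 2 < (x0 + 1) ^ 2 := by
      rw [h1, hβ2, hc1, hx0]
      nlinarith
    have h3 : 0 < x0 + 1 := by rw [hx0]; linarith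
    exact lt_of_pow_lt_pow_left₀ 2 h3.le h2
  obtain ⟨r, hr1, hr2⟩ := exists_between hdist
  have hr0 : 0 < r := lt_of_le_of_lt (norm_nonneg _) hr1
  lift r to NNReal using hr0.le
  obtain ⟨T, hT, hTeq⟩ := exists_analytic (c := -1) han heq hcm (x0 := x0) (r := r)
    (by exact_mod_cast hr0) (by linarith)
  -- identity theorem
  set P1 : ℂ → ℂ := fun z => (deriv psiC (z + 1) - T z) * ((z ^ 2 + z + c1) * (z ^ 2 + z + c2))
    with hP1
  set P2 : ℂ → ℂ := fun z => (A : ℂ) * ((2 * z + 1) * (z ^ 2 + z + c2)) +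
    (B : ℂ) * ((2 * z + 1) * (z ^ 2 + z + c1)) with hP2
  have hP1an : AnalyticOnNhd ℂ P1 (Metric.ball (x0 : ℂ) r) := by
    intro z hz
    have hre : 0 < (z + 1).re := by
      rw [Metric.mem_ball, dist_eq_norm] at hz
      have h1 := Complex.abs_re_le_norm (z - x0)
      have h2 := (abs_lt.mp (lt_of_le_of_lt h1 hz)).1
      simp only [Complex.sub_re, Complex.ofReal_re, Complex.add_re, Complex.one_re] at h2 ⊢
      linarith
    have h2 : AnalyticAt ℂ (fun z : ℂ => deriv psiC (z + 1)) z :=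
      AnalyticAt.comp (g := deriv psiC) (f := fun z : ℂ => z + 1) (analytic_psiC hre).deriv
        (by fun_prop)
    exact (h2.sub (hT z hz)).mul (by fun_prop)
  have hP2an : AnalyticOnNhd ℂ P2 (Metric.ball (x0 : ℂ) r) := by
    intro z _
    simp only [hP2]
    fun_prop
  have hev : P1 =ᶠ[𝓝 (x0 : ℂ)] P2 := by
    have hx0' : -1 < x0 := by rw [hx0]; linarith
    have hne1 : ∀ᶠ z : ℂ in 𝓝 (x0 : ℂ), z ^ 2 + z + (c1 : ℂ) ≠ 0 := by
      have hcont : ContinuousAt (fun z : ℂ => z ^ 2 + z + (c1 : ℂ)) (x0 : ℂ) := by fun_prop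
      exact hcont.eventually_ne (hqC c1 x0 hc1')
    have hne2 : ∀ᶠ z : ℂ in 𝓝 (x0 : ℂ), z ^ 2 + z + (c2 : ℂ) ≠ 0 := by
      have hcont : ContinuousAt (fun z : ℂ => z ^ 2 + z + (c2 : ℂ)) (x0 : ℂ) := by fun_prop
      exact hcont.eventually_ne (hqC c2 x0 hc2')
    filter_upwards [hTeq, hne1, hne2] with z hz h1 h2
    simp only [hP1, hP2]
    rw [← hz]
    simp only [hfC]
    generalize z ^ 2 + z + (c1 : ℂ) = q1 at h1 ⊢
    generalize z ^ 2 + z + (c2 : ℂ) = q2 at h2 ⊢
    field_simp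
    ring
  have hpre : IsPreconnected (Metric.ball (x0 : ℂ) r) := (convex_ball _ _).isPreconnected
  have hEq := hP1an.eqOn_of_preconnected_of_eventuallyEq hP2an hpre
    (Metric.mem_ball_self hr0) hev
  have hz0mem : z0 ∈ Metric.ball (x0 : ℂ) r := by
    rw [Metric.mem_ball, dist_eq_norm]; exact hr1
  have h0 := hEq hz0mem
  have hzz : z0 ^ 2 + z0 + (c1 : ℂ) = 0 := by
    apply Complex.ext
    · simp [hz0, pow_two]
      nlinarith
    · simp [hz0, pow_two]
      ring
  simp only [hP1, hP2, hzz, zero_mul, mul_zero, add_zero] at h0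
  have h1 : (A : ℂ) * ((2 * z0 + 1) * (z0 ^ 2 + z0 + c2)) ≠ 0 := by
    apply mul_ne_zero
    · exact_mod_cast hA0.ne'
    · apply mul_ne_zero
      · intro h
        have := congrArg Complex.im h
        simp [hz0] at this
        exact hβ0.ne' this
      · intro h
        have h3 : ((c2 - c1 : ℝ) : ℂ) = 0 := by
          push_cast
          linear_combination h - hzz
        have : c2 - c1 = 0 := by exact_mod_cast h3
        linarith
  exact h1 h0.symm

/-- `a_1 > 4/15`, and for every `a > 4/15` (in particular for `a = a_1`) there are an integer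
`n ≥ 0` and a point `x > -1` with `(-1)^n G_a^{(n)}(x) < 0`, where `G_a = 𝓛(·, a) - ψ(· + 1)`. -/
theorem result : 4 / 15 < a1 ∧ ∀ a : ℝ, 4 / 15 < a →
    ∃ n : ℕ, ∃ x : ℝ, -1 < x ∧ (-1 : ℝ) ^ n * iteratedDeriv n (G a) x < 0 := by
  refine ⟨?_, main⟩
  unfold a1
  have : 0 ≤ √205 := Real.sqrt_nonneg _
  linarith

end Pool.Agent.Results.MP_d2a7e5_an.NotCM
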